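import Mathlib

/-!
End game of the convergence proof: uniqueness of the boundary value problem.
-/

set_option autoImplicit false

open Set Filter Topology Complex

namespace RectFull

/-- a holomorphic function with real boundary values is constant -/
theorem const_of_im_eq_zero {D : Set ℂ} (hD : IsOpen D) (hb : Bornology.IsBounded D)
    (hc : IsPreconnected D) {g : ℂ → ℂ} (hg : DiffContOnCl ℂ g D)
    (hreal : ∀ z ∈ frontier D, (g z).im = 0) :
    ∃ w : ℂ, ∀ z ∈ closure D, g z = w := by
  have key : ∀ s : ℝ, ∀ z ∈ closure D, ‖cexp ((s : ℂ) * I * g z)‖ ≤ 1 := by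
    intro s z hz
    have hd : DiffContOnCl ℂ (fun z => cexp ((s : ℂ) * I * g z)) D :=
      (Complex.differentiable_exp.diffContOnCl (s := univ)).comp (hg.const_smul ((s : ℂ) * I))
        (fun _ _ => mem_univ _)
    refine Complex.norm_le_of_forall_mem_frontier_norm_le hb hd ?_ hz
    intro x hx
    rw [Complex.norm_exp]
    have : ((s : ℂ) * I * g x).re = 0 := by
      simp [hreal x hx]
    rw [this, Real.exp_zero]
  have him : ∀ z ∈ closure D, (g z).im = 0 := by
    intro z hz
    have h1 := key 1 z hz
    have h2 := key (-1) z hz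
    rw [Complex.norm_exp, Real.exp_le_one_iff] at h1 h2
    simp at h1 h2
    linarith
  rcases D.eq_empty_or_nonempty with rfl | hne
  · exact ⟨0, by simp⟩
  · have han : AnalyticOnNhd ℂ g D := hg.differentiableOn.analyticOnNhd hD
    rcases han.is_constant_or_isOpen hc with ⟨w, hw⟩ | hopen
    · refine ⟨w, fun z hz => ?_⟩
      have : EqOn g (fun _ => w) (closure D) :=
        Set.EqOn.of_subset_closure (s := D) hw hg.continuousOn continuousOn_const subset_closure
          subset_rfl
      exact this hz
    · exfalso
      have h1 : IsOpen (g '' D) := hopen D subset_rfl hD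
      obtain ⟨z, hz⟩ := hne
      obtain ⟨r, hr, hball⟩ := Metric.isOpen_iff.1 h1 (g z) (mem_image_of_mem _ hz)
      have h2 : g z + (r / 2 : ℝ) * I ∈ g '' D := by
        apply hball
        rw [Metric.mem_ball, dist_eq_norm]
        simp
        rw [abs_of_pos (by positivity : (0 : ℝ) < r)]
        linarith
      obtain ⟨y, hy, he⟩ := h2
      have h3 := him y (subset_closure hy)
      rw [he] at h3
      have h4 := him z (subset_closure hz)
      simp [h4] at h3
      linarith

/-- uniqueness: a holomorphic function whose cube is real on the boundary and which vanishes at a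
boundary point vanishes -/
theorem eq_zero_of_cube_real {D : Set ℂ} (hD : IsOpen D) (hb : Bornology.IsBounded D)
    (hc : IsPreconnected D) {h : ℂ → ℂ} (hh : DiffContOnCl ℂ h D)
    (hreal : ∀ z ∈ frontier D, ((h z) ^ 3).im = 0) {z₀ : ℂ} (hz₀ : z₀ ∈ closure D)
    (h0 : h z₀ = 0) : ∀ z ∈ closure D, h z = 0 := by
  have hg : DiffContOnCl ℂ (fun z => (h z) ^ 3) D :=
    ⟨hh.differentiableOn.pow 3, hh.continuousOn.pow 3⟩
  obtain ⟨w, hw⟩ := const_of_im_eq_zero hD hb hc hg hreal
  have hw0 : w = 0 := by
    rw [← hw z₀ hz₀, h0]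
    ring
  intro z hz
  have := hw z hz
  rw [hw0] at this
  exact pow_eq_zero_iff (by norm_num) |>.1 this

end RectFull
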